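import Mathlib
import Pool.Agent.Helper93.Sph.R

/-! Maximal functions of the ball partial sums: measurability, translations, scaling. -/

set_option autoImplicit false

open MeasureTheory Real Set Filter Topology
open scoped ENNReal NNReal RealInnerProductSpace

namespace Pool.Agent.Run7.h167.SR

open Pool.Agent.Helper93.Sph

/-- the square of the norm -/
noncomputable def nn {n : ℕ} (G : En n → ℂ) : ℝ≥0∞ := ∫⁻ ξ, ‖G ξ‖ₑ ^ 2

/-- the square of the maximal function over all radii -/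
noncomputable def Mx {n : ℕ} (G : En n → ℂ) (x : En n) : ℝ≥0∞ := ⨆ R : ℝ, ‖ps G R x‖ₑ ^ 2

/-- the square of the maximal function over the radii in `D` -/
noncomputable def Mr {n : ℕ} (D : Set ℝ) (G : En n → ℂ) (x : En n) : ℝ≥0∞ :=
  ⨆ R : D, ‖ps G R x‖ₑ ^ 2

lemma Mr_meas {m : ℕ} (D : Set ℝ) {G : En (m + 1) → ℂ} (hG : MemLp G 2) : Measurable (Mr D G) := by
  have : LowerSemicontinuous (Mr D G) := lowerSemicontinuous_iSup fun R =>
    ((ENNReal.continuous_pow 2).comp (ps_cont_x hG R).enorm).lowerSemicontinuous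
  exact this.measurable

lemma le_Mr {n : ℕ} {D : Set ℝ} (G : En n → ℂ) (x : En n) {R : ℝ} (hR : R ∈ D) :
    ‖ps G R x‖ₑ ^ 2 ≤ Mr D G x := le_iSup (fun R : D => ‖ps G R x‖ₑ ^ 2) ⟨R, hR⟩

lemma Mx_eq {m : ℕ} {G : En (m + 1) → ℂ} (hG : MemLp G 2) (x : En (m + 1)) :
    Mx G x = ⨆ q : ℚ, ‖ps G (q : ℝ) x‖ₑ ^ 2 := by
  refine le_antisymm (iSup_le fun R => ?_) (iSup_le fun q =>
    le_iSup (fun R : ℝ => ‖ps G R x‖ₑ ^ 2) (q : ℝ))
  have hc : Continuous fun R : ℝ => ‖ps G R x‖ₑ ^ 2 :=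
    (ENNReal.continuous_pow 2).comp (ps_cont_R hG x).enorm
  have hcl : IsClosed {R : ℝ | ‖ps G R x‖ₑ ^ 2 ≤ ⨆ q : ℚ, ‖ps G (q : ℝ) x‖ₑ ^ 2} :=
    isClosed_le hc continuous_const
  have hsub : closure (Set.range ((↑) : ℚ → ℝ)) ⊆
      {R : ℝ | ‖ps G R x‖ₑ ^ 2 ≤ ⨆ q : ℚ, ‖ps G (q : ℝ) x‖ₑ ^ 2} := by
    refine closure_minimal ?_ hcl
    rintro _ ⟨q, rfl⟩
    exact le_iSup (fun q : ℚ => ‖ps G (q : ℝ) x‖ₑ ^ 2) q
  exact hsub (Rat.denseRange_cast (𝕜 := ℝ) R)

lemma Mx_meas {m : ℕ} {G : En (m + 1) → ℂ} (hG : MemLp G 2) : Measurable (Mx G) := by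
  have : Mx G = fun x => ⨆ q : ℚ, ‖ps G (q : ℝ) x‖ₑ ^ 2 := funext fun x => Mx_eq hG x
  rw [this]
  exact Measurable.iSup fun q => (ps_cont_x hG _).measurable.enorm.pow_const 2

lemma memLp_of {n : ℕ} {G : En n → ℂ} (hm : AEStronglyMeasurable G volume) (h : nn G < ⊤) :
    MemLp G 2 := by
  refine ⟨hm, ?_⟩
  rw [eLpNorm_lt_top_iff_lintegral_rpow_enorm_lt_top (by norm_num) (by norm_num)]
  simpa [nn] using h

lemma nn_fin {n : ℕ} {G : En n → ℂ} (hG : MemLp G 2) : nn G < ⊤ :=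
  lt_top_iff_ne_top.2 (sq_fin hG)

/-! translations -/

lemma ek_memLp {n : ℕ} (z : En n) {G : En n → ℂ} (hG : MemLp G 2) :
    MemLp (fun ξ => ek z ξ * G ξ) 2 := by
  refine (memLp_congr_norm ?_ hG.aestronglyMeasurable ?_).2 hG
  · exact ((ek_cont.comp (by fun_prop : Continuous fun ξ : En n => (z, ξ))
      ).aestronglyMeasurable).mul hG.aestronglyMeasurable
  · refine Eventually.of_forall fun ξ => ?_
    rw [norm_mul, ek_norm, one_mul]

lemma nn_ek {n : ℕ} (z : En n) (G : En n → ℂ) : nn (fun ξ => ek z ξ * G ξ) = nn G := by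
  unfold nn
  refine lintegral_congr fun ξ => ?_
  rw [enorm_mul, ← ofReal_norm (ek z ξ), ek_norm]
  simp

lemma ps_ek {n : ℕ} (z : En n) (G : En n → ℂ) (R : ℝ) (x : En n) :
    ps (fun ξ => ek z ξ * G ξ) R x = ps G R (x + z) := by
  unfold ps
  refine integral_congr_ae (Eventually.of_forall fun ξ => ?_)
  simp only [ek_add]
  ring

lemma ball_shift {n : ℕ} (F : En n → ℝ≥0∞) (x₀ y : En n) (ρ : ℝ) :
    ∫⁻ x in Metric.closedBall x₀ ρ, F x = ∫⁻ x in Metric.closedBall y ρ, F (x + (x₀ - y)) := by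
  have h := (measurePreserving_add_right (volume : Measure (En n))
    (x₀ - y)).setLIntegral_comp_preimage_emb (MeasurableEquiv.addRight (x₀ - y)).measurableEmbedding
    F (Metric.closedBall x₀ ρ)
  rw [← h]
  have hpre : (fun x : En n => x + (x₀ - y)) ⁻¹' Metric.closedBall x₀ ρ = Metric.closedBall y ρ := by
    ext x
    simp only [mem_preimage, Metric.mem_closedBall, dist_eq_norm]
    rw [show x + (x₀ - y) - x₀ = x - y by abel]
  rw [hpre]

/-! scaling -/

/-- the scaled function -/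
noncomputable def Gs {n : ℕ} (l : ℝ) (G : En n → ℂ) : En n → ℂ := fun ξ => G (l⁻¹ • ξ)

lemma lint_smul {n : ℕ} {l : ℝ} (hl : 0 < l) (F : En n → ℝ≥0∞) :
    ∫⁻ y, F (l • y) = ENNReal.ofReal ((l ^ n)⁻¹) * ∫⁻ x, F x := by
  let e : En n ≃ᵐ En n := (Homeomorph.smul (Units.mk0 l hl.ne')).toMeasurableEquiv
  have h1 : ∫⁻ x, F x ∂(Measure.map e volume) = ∫⁻ y, F (e y) := lintegral_map_equiv F e
  have h2 : Measure.map e (volume : Measure (En n)) = ENNReal.ofReal (abs (l ^ n)⁻¹) • volume := by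
    have := Measure.map_addHaar_smul (volume : Measure (En n)) hl.ne'
    rwa [finrank_euclideanSpace, Fintype.card_fin] at this
  rw [h2, lintegral_smul_measure, abs_of_pos (by positivity)] at h1
  exact h1.symm

lemma nn_Gs {n : ℕ} {l : ℝ} (hl : 0 < l) (G : En n → ℂ) :
    nn (Gs l G) = ENNReal.ofReal (l ^ n) * nn G := by
  have h := lint_smul (inv_pos.2 hl) (fun ξ : En n => ‖G ξ‖ₑ ^ 2)
  rw [inv_pow, inv_inv] at h
  exact h

lemma Gs_memLp {n : ℕ} {l : ℝ} (hl : 0 < l) {G : En n → ℂ} (hG : MemLp G 2) :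
    MemLp (Gs l G) 2 := by
  refine memLp_of ?_ ?_
  · exact hG.aestronglyMeasurable.comp_quasiMeasurePreserving
      (Measure.quasiMeasurePreserving_smul volume (inv_pos.2 hl).ne')
  · rw [nn_Gs hl]
    exact ENNReal.mul_lt_top ENNReal.ofReal_lt_top (nn_fin hG)

lemma ps_Gs {n : ℕ} {l : ℝ} (hl : 0 < l) (G : En n → ℂ) (R : ℝ) (x : En n) :
    ps (Gs l G) (l * R) (l⁻¹ • x) = ((l ^ n : ℝ) : ℂ) * ps G R x := by
  unfold ps
  rw [← integral_indicator Metric.isClosed_closedBall.measurableSet,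
    ← integral_indicator Metric.isClosed_closedBall.measurableSet]
  have h1 : ∀ ξ : En n, (Metric.closedBall (0 : En n) (l * R)).indicator
      (fun ξ => ek (l⁻¹ • x) ξ * Gs l G ξ) ξ =
      (Metric.closedBall (0 : En n) R).indicator (fun η => ek x η * G η) (l⁻¹ • ξ) := by
    intro ξ
    have hiff : l⁻¹ • ξ ∈ Metric.closedBall (0 : En n) R ↔
        ξ ∈ Metric.closedBall (0 : En n) (l * R) := by
      simp only [Metric.mem_closedBall, dist_zero_right, norm_smul, norm_inv, Real.norm_eq_abs,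
        abs_of_pos hl]
      rw [inv_mul_le_iff₀ hl]
    by_cases h : ξ ∈ Metric.closedBall (0 : En n) (l * R)
    · rw [indicator_of_mem h, indicator_of_mem (hiff.2 h), Gs]
      congr 1
      rw [ek, ek, real_inner_smul_left, real_inner_smul_right]
    · rw [indicator_of_notMem h, indicator_of_notMem (fun h' => h (hiff.1 h'))]
  rw [integral_congr_ae (Eventually.of_forall h1), Measure.integral_comp_inv_smul_of_nonneg
    volume _ hl.le, finrank_euclideanSpace, Fintype.card_fin, Complex.real_smul]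

lemma Mx_Gs {n : ℕ} {l : ℝ} (hl : 0 < l) (G : En n → ℂ) (x : En n) :
    Mx (Gs l G) (l⁻¹ • x) = ENNReal.ofReal (l ^ n) ^ 2 * Mx G x := by
  have h1 : ∀ R : ℝ, ‖ps (Gs l G) (l * R) (l⁻¹ • x)‖ₑ ^ 2 =
      ENNReal.ofReal (l ^ n) ^ 2 * ‖ps G R x‖ₑ ^ 2 := by
    intro R
    rw [ps_Gs hl, enorm_mul, mul_pow]
    congr 2
    rw [← ofReal_norm, Complex.norm_real, Real.norm_of_nonneg (by positivity)]
  unfold Mx
  rw [ENNReal.mul_iSup]
  refine le_antisymm (iSup_le fun R => ?_) (iSup_le fun R => ?_)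
  · have := h1 (l⁻¹ * R)
    rw [mul_inv_cancel_left₀ hl.ne'] at this
    rw [this]
    exact le_iSup (fun R : ℝ => ENNReal.ofReal (l ^ n) ^ 2 * ‖ps G R x‖ₑ ^ 2) (l⁻¹ * R)
  · rw [← h1 R]
    exact le_iSup (fun R : ℝ => ‖ps (Gs l G) R (l⁻¹ • x)‖ₑ ^ 2) (l * R)

/-- a bound for the scaled function on a ball is a bound on the scaled ball -/
lemma scale_ball {n : ℕ} {l : ℝ} (hl : 0 < l) {G : En n → ℂ} {ρ : ℝ} {K : ℝ≥0∞}
    (h : ∫⁻ x in Metric.closedBall (0 : En n) ρ, Mx (Gs l G) x ≤ K * nn (Gs l G)) :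
    ∫⁻ x in Metric.closedBall (0 : En n) (l * ρ), Mx G x ≤ K * nn G := by
  set c : ℝ≥0∞ := ENNReal.ofReal (l ^ n) with hc
  have hc0 : c ≠ 0 := by rw [hc]; simpa using pow_pos hl n
  have hct : c ≠ ⊤ := ENNReal.ofReal_ne_top
  set I : ℝ≥0∞ := ∫⁻ z in Metric.closedBall (0 : En n) ρ, Mx G (l • z) with hI
  have h1 : ∫⁻ x in Metric.closedBall (0 : En n) ρ, Mx (Gs l G) x = c ^ 2 * I := by
    rw [hI, ← lintegral_const_mul' _ _ (ENNReal.pow_ne_top hct)]
    refine lintegral_congr fun z => ?_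
    have := Mx_Gs hl G (l • z)
    rw [inv_smul_smul₀ hl.ne'] at this
    exact this
  have h2 : ∫⁻ x in Metric.closedBall (0 : En n) (l * ρ), Mx G x = c * I := by
    have h3 := lint_smul hl (fun x : En n =>
      (Metric.closedBall (0 : En n) (l * ρ)).indicator (Mx G) x)
    have h4 : ∫⁻ y : En n, (Metric.closedBall (0 : En n) (l * ρ)).indicator (Mx G) (l • y) = I := by
      rw [hI, ← lintegral_indicator Metric.isClosed_closedBall.measurableSet]
      refine lintegral_congr fun z => ?_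
      have hiff : l • z ∈ Metric.closedBall (0 : En n) (l * ρ) ↔
          z ∈ Metric.closedBall (0 : En n) ρ := by
        simp only [Metric.mem_closedBall, dist_zero_right, norm_smul, Real.norm_eq_abs,
          abs_of_pos hl]
        exact mul_le_mul_iff_right₀ hl
      by_cases hz : z ∈ Metric.closedBall (0 : En n) ρ
      · rw [indicator_of_mem hz, indicator_of_mem (hiff.2 hz)]
      · rw [indicator_of_notMem hz, indicator_of_notMem (fun h' => hz (hiff.1 h'))]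
    rw [h4, lintegral_indicator Metric.isClosed_closedBall.measurableSet] at h3
    rw [h3, ← mul_assoc, hc, ← ENNReal.ofReal_mul (by positivity),
      mul_inv_cancel₀ (pow_pos hl n).ne', ENNReal.ofReal_one, one_mul]
  rw [h1, nn_Gs hl] at h
  rw [h2]
  have h5 : c * (c * I) ≤ c * (K * nn G) := by
    calc c * (c * I) = c ^ 2 * I := by ring
      _ ≤ K * (c * nn G) := h
      _ = _ := by ring
  exact (ENNReal.mul_le_mul_iff_right hc0 hct).1 h5

/-- bounds on all balls give a bound on the whole space -/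
lemma glob {n : ℕ} (F : En n → ℝ≥0∞) (K : ℝ≥0∞)
    (h : ∀ L : ℝ, 0 < L → ∫⁻ x in Metric.closedBall (0 : En n) L, F x ≤ K) : ∫⁻ x, F x ≤ K := by
  have h1 : (⋃ k : ℕ, Metric.closedBall (0 : En n) ((k : ℝ) + 1)) = univ := by
    refine eq_univ_of_forall fun x => mem_iUnion.2 ?_
    obtain ⟨k, hk⟩ := exists_nat_ge ‖x‖
    exact ⟨k, by simp; linarith⟩
  have h2 : Directed (· ⊆ ·) fun k : ℕ => Metric.closedBall (0 : En n) ((k : ℝ) + 1) := by
    refine Monotone.directed_le fun a b hab => Metric.closedBall_subset_closedBall ?_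
    have : (a : ℝ) ≤ b := by exact_mod_cast hab
    linarith
  rw [← setLIntegral_univ, ← h1, setLIntegral_iUnion_of_directed F h2]
  exact iSup_le fun k => h _ (by positivity)

end Pool.Agent.Run7.h167.SR
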