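import Mathlib
import Pool.Agent.Run7.h167.SR.A

/-! From sparse radii on one ball to all radii on the whole space. -/

set_option autoImplicit false

open MeasureTheory Real Set Filter Topology
open scoped ENNReal NNReal RealInnerProductSpace

namespace Pool.Agent.Run7.h167.SR

open Pool.Agent.Helper93.Sph

/-- every large octave contains a radius, and in infinitely many octaves they are dense up to `ε` -/
structure Radii (D : Set ℝ) (a₀ : ℝ) : Prop where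
  nonneg : ∀ r ∈ D, 0 ≤ r
  pos : 0 < a₀
  octave : ∀ R, a₀ ≤ R → ∃ r ∈ D, R ≤ r ∧ r ≤ 2 * R
  dense : ∀ ε : ℝ, 0 < ε → ∀ M₀ : ℝ, ∃ M, M₀ ≤ M ∧ ∀ R, M ≤ R → R ≤ 2 * M →
    ∃ r ∈ D, |r - R| ≤ ε * M

lemma abs_le_energy {m : ℕ} {G : En (m + 1) → ℂ} (hG : MemLp G 2) (x : En (m + 1)) {R R' : ℝ}
    (h0 : 0 ≤ R) (h0' : 0 ≤ R') :
    ‖ps G R' x - ps G R x‖ₑ ^ 2 ≤ ENNReal.ofReal |R' - R| * energy G x := by
  rcases le_total R R' with h | h
  · rw [abs_of_nonneg (by linarith)]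
    exact sub_le_energy hG x h0 h
  · rw [abs_of_nonpos (by linarith), neg_sub, ← enorm_neg, neg_sub]
    exact sub_le_energy hG x h0' h

lemma ps_same {m : ℕ} {G : En (m + 1) → ℂ} (hG : MemLp G 2) {R R' : ℝ} (h0 : 0 ≤ R) (h : R ≤ R')
    (hz : ∀ ξ ∈ shell (m + 1) R R', G ξ = 0) (x : En (m + 1)) : ps G R' x = ps G R x := by
  rw [← sub_eq_zero, ps_sub hG h0 h, Fi]
  have : ∀ ξ, ek x ξ * (shell (m + 1) R R').indicator G ξ = 0 := by
    intro ξ
    by_cases hξ : ξ ∈ shell (m + 1) R R'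
    · rw [indicator_of_mem hξ, hz ξ hξ, mul_zero]
    · rw [indicator_of_notMem hξ, mul_zero]
  simp [this]

lemma sq_le_two (a b : ℂ) : ‖a‖ₑ ^ 2 ≤ 2 * (‖b‖ₑ ^ 2 + ‖a - b‖ₑ ^ 2) := by
  have := enorm_add_sq_le b (a - b)
  rwa [add_sub_cancel] at this

lemma block_pt {m : ℕ} {D : Set ℝ} (hr0 : ∀ r ∈ D, 0 ≤ r) {M δ : ℝ} (hM : 0 < M)
    (hd : ∀ R, M ≤ R → R ≤ 2 * M → ∃ r ∈ D, |r - R| ≤ δ)
    {H : En (m + 1) → ℂ} (hH : MemLp H 2)
    (hs : ∀ ξ, ξ ∉ shell (m + 1) M (2 * M) → H ξ = 0) (x : En (m + 1)) :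
    Mx H x ≤ 2 * Mr D H x + 2 * ENNReal.ofReal δ * energy H x := by
  refine iSup_le fun R => ?_
  rcases le_total R M with hR | hR
  · have : ps H R x = 0 := by
      rcases lt_or_ge R 0 with h | h
      · exact ps_neg H h x
      · rw [ps_same hH le_rfl h (fun ξ hξ => hs ξ (fun h' => absurd (hξ.2.trans_le hR)
          (not_lt.2 h'.1))) x, ps_zero]
    rw [this]
    simp
  · set R₁ := min R (2 * M) with hR₁
    have h1 : M ≤ R₁ := le_min hR (by linarith)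
    have h2 : R₁ ≤ 2 * M := min_le_right _ _
    have h3 : ps H R x = ps H R₁ x := by
      rcases le_total R (2 * M) with h | h
      · rw [hR₁, min_eq_left h]
      · rw [hR₁, min_eq_right h]
        exact ps_same hH (by linarith) h (fun ξ hξ => hs ξ (fun h' => absurd h'.2
          (not_lt.2 hξ.1))) x
    obtain ⟨r, hrD, hk⟩ := hd R₁ h1 h2
    rw [h3]
    refine (sq_le_two (ps H R₁ x) (ps H r x)).trans ?_
    rw [mul_add]
    refine add_le_add (mul_le_mul_right (le_Mr H x hrD) _) ?_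
    rw [mul_assoc]
    refine mul_le_mul_right ?_ _
    refine (abs_le_energy hH x (hr0 r hrD) (by linarith)).trans (mul_le_mul_left ?_ _)
    rw [abs_sub_comm]
    exact ENNReal.ofReal_le_ofReal hk

/-- the constant of the local estimate -/
noncomputable def C0 (m : ℕ) : ℝ := 10 * (m + 1) * √(m + 1)

lemma C0_nonneg (m : ℕ) : 0 ≤ C0 m := by unfold C0; positivity

lemma two_ofReal {s t : ℝ} (hs : 0 ≤ s) (_ : 0 ≤ t) :
    (2 : ℝ≥0∞) * ENNReal.ofReal s * ENNReal.ofReal t = ENNReal.ofReal (2 * s * t) := by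
  rw [ENNReal.ofReal_mul (by positivity), ENNReal.ofReal_mul (by norm_num)]
  simp

lemma block {m : ℕ} {D : Set ℝ} {a₀ : ℝ} (hr : Radii D a₀) {ρ : ℝ} (hρ : 0 < ρ) {A : ℝ≥0∞}
    (hA : ∀ G : En (m + 1) → ℂ, MemLp G 2 →
      ∫⁻ x in Metric.closedBall (0 : En (m + 1)) ρ, Mr D G x ≤ A * nn G)
    {a : ℝ} (ha : 0 < a) {G : En (m + 1) → ℂ} (hG : MemLp G 2)
    (hs : ∀ ξ, ξ ∉ shell (m + 1) a (2 * a) → G ξ = 0) :
    ∫⁻ x, Mx G x ≤ (2 * A + ENNReal.ofReal (C0 m)) * nn G := by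
  refine glob _ _ fun L hL => ?_
  obtain ⟨M, hM1, hM2⟩ := hr.dense (1 / (2 * a * L)) (by positivity) (max a (L * a / ρ))
  have hMa : a ≤ M := (le_max_left _ _).trans hM1
  have hM3 : L * a / ρ ≤ M := (le_max_right _ _).trans hM1
  have hM : 0 < M := ha.trans_le hMa
  set l := M / a with hl
  have hl0 : 0 < l := by positivity
  set H := Gs l G with hHdef
  have hH : MemLp H 2 := Gs_memLp hl0 hG
  have hsH : ∀ ξ, ξ ∉ shell (m + 1) M (2 * M) → H ξ = 0 := by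
    intro ξ hξ
    refine hs _ fun h' => hξ ?_
    obtain ⟨h1, h2⟩ := h'
    rw [norm_smul, norm_inv, Real.norm_of_nonneg hl0.le] at h1 h2
    have e1 : l * a = M := by rw [hl]; field_simp
    constructor
    · rw [← e1]
      have := mul_le_mul_of_nonneg_left h1 hl0.le
      rwa [mul_inv_cancel_left₀ hl0.ne'] at this
    · rw [← e1]
      have := mul_lt_mul_of_pos_left h2 hl0
      rw [mul_inv_cancel_left₀ hl0.ne'] at this
      linarith
  set ρ' := L / l with hρ'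
  have hρ'0 : 0 < ρ' := by positivity
  have hρ'ρ : ρ' ≤ ρ := by
    rw [hρ', hl, div_div_eq_mul_div, div_le_iff₀ hM]
    rw [div_le_iff₀ hρ] at hM3
    linarith
  have hpt : ∀ x, Mx H x ≤ 2 * Mr D H x +
      2 * ENNReal.ofReal (1 / (2 * a * L) * M) * energy H x :=
    fun x => block_pt hr.nonneg hM hM2 hH hsH x
  have hb : ∫⁻ x in Metric.closedBall (0 : En (m + 1)) ρ', Mx H x ≤
      (2 * A + ENNReal.ofReal (C0 m)) * nn H := by
    refine (lintegral_mono hpt).trans ?_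
    rw [lintegral_add_left ((Mr_meas D hH).const_mul _), lintegral_const_mul' _ _ (by simp),
      lintegral_const_mul' _ _ (ENNReal.mul_ne_top (by simp) ENNReal.ofReal_ne_top), add_mul]
    refine add_le_add ?_ ?_
    · rw [mul_assoc]
      refine mul_le_mul_right ?_ _
      exact (lintegral_mono_set (Metric.closedBall_subset_closedBall hρ'ρ)).trans (hA H hH)
    · refine (mul_le_mul_right (energy_bound hH 0 hρ'0) _).trans (le_of_eq ?_)
      rw [← mul_assoc, two_ofReal (by positivity) (by positivity)]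
      congr 2
      rw [hρ', hl, C0]
      field_simp
  have := scale_ball hl0 hb
  rwa [hρ', mul_div_cancel₀ _ hl0.ne'] at this

/-- increments inside of a block only see the block -/
lemma incr_block {m : ℕ} {G : En (m + 1) → ℂ} (hG : MemLp G 2) {a b R R' : ℝ} (ha : 0 ≤ a)
    (h1 : a ≤ R) (h2 : R ≤ R') (h3 : R' ≤ b) (x : En (m + 1)) :
    ps G R' x - ps G R x = ps ((shell (m + 1) a b).indicator G) R' x -
      ps ((shell (m + 1) a b).indicator G) R x := by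
  rw [ps_sub hG (ha.trans h1) h2, ps_sub (hG.indicator (shell_meas _ _ _)) (ha.trans h1) h2]
  congr 1
  ext ξ
  by_cases h : ξ ∈ shell (m + 1) R R'
  · have h' : ξ ∈ shell (m + 1) a b := ⟨h1.trans h.1, h.2.trans_le h3⟩
    rw [indicator_of_mem h, indicator_of_mem h, indicator_of_mem h']
  · rw [indicator_of_notMem h, indicator_of_notMem h]

lemma incr_le {m : ℕ} {G : En (m + 1) → ℂ} (hG : MemLp G 2) {a b R R' : ℝ} (ha : 0 ≤ a)
    (h1 : a ≤ R) (h1' : a ≤ R') (h2 : R ≤ b) (h2' : R' ≤ b) (x : En (m + 1)) :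
    ‖ps G R' x - ps G R x‖ₑ ^ 2 ≤ 4 * Mx ((shell (m + 1) a b).indicator G) x := by
  set H := (shell (m + 1) a b).indicator G with hH
  have e : ps G R' x - ps G R x = ps H R' x - ps H R x := by
    rcases le_total R R' with h | h
    · exact incr_block hG ha h1 h h2' x
    · have := incr_block hG ha h1' h h2 x
      rw [← neg_sub (ps G R x), this, neg_sub]
  rw [e, sub_eq_add_neg]
  refine (enorm_add_sq_le _ _).trans ?_
  rw [enorm_neg]
  have a1 : ‖ps H R' x‖ₑ ^ 2 ≤ Mx H x := le_iSup (fun R : ℝ => ‖ps H R x‖ₑ ^ 2) R'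
  have a2 : ‖ps H R x‖ₑ ^ 2 ≤ Mx H x := le_iSup (fun R : ℝ => ‖ps H R x‖ₑ ^ 2) R
  calc 2 * (‖ps H R' x‖ₑ ^ 2 + ‖ps H R x‖ₑ ^ 2) ≤ 2 * (Mx H x + Mx H x) := by gcongr
    _ = _ := by ring

/-- the part of `G` in the `j`-th octave -/
noncomputable def oct {m : ℕ} (a₀ : ℝ) (G : En (m + 1) → ℂ) (j : ℕ) : En (m + 1) → ℂ :=
  (shell (m + 1) (a₀ * 2 ^ j) (2 * (a₀ * 2 ^ j))).indicator G

lemma oct_memLp {m : ℕ} (a₀ : ℝ) {G : En (m + 1) → ℂ} (hG : MemLp G 2) (j : ℕ) :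
    MemLp (oct a₀ G j) 2 := hG.indicator (shell_meas _ _ _)

lemma main_pt {m : ℕ} {D : Set ℝ} {a₀ : ℝ} (hr : Radii D a₀) {G : En (m + 1) → ℂ}
    (hG : MemLp G 2) (x : En (m + 1)) :
    Mx G x ≤ 2 * Mr D G x + 8 * (∑' j, Mx (oct a₀ G j) x) + ENNReal.ofReal a₀ * energy G x := by
  have ha := hr.pos
  refine iSup_le fun R => ?_
  rcases le_total R a₀ with hR | hR
  · rcases lt_or_ge R 0 with h | h
    · rw [ps_neg G h x]; simp
    · have h1 := sub_le_energy hG x le_rfl h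
      rw [ps_zero, sub_zero, sub_zero] at h1
      refine h1.trans (le_trans (mul_le_mul_left (ENNReal.ofReal_le_ofReal hR) _) ?_)
      exact le_add_self
  · have hx1 : 1 ≤ R / a₀ := by rwa [le_div_iff₀ ha, one_mul]
    obtain ⟨j, hj1, hj2⟩ := exists_nat_pow_near hx1 (one_lt_two : (1 : ℝ) < 2)
    rw [le_div_iff₀ ha] at hj1
    rw [div_lt_iff₀ ha] at hj2
    have hp : (1 : ℝ) ≤ 2 ^ j := one_le_pow₀ (by norm_num)
    have hj3 : a₀ ≤ a₀ * 2 ^ j := by nlinarith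
    have hj4 : a₀ * 2 ^ j ≤ R := by linarith
    have hj5 : R ≤ 2 * (a₀ * 2 ^ j) := by rw [pow_succ] at hj2; linarith
    obtain ⟨r, hrD, hk1, hk2⟩ := hr.octave _ hj3
    have h1 := sq_le_two (ps G R x) (ps G r x)
    have h2 := incr_le hG (a := a₀ * 2 ^ j) (b := 2 * (a₀ * 2 ^ j)) (by positivity) hk1 hj4 hk2 hj5 x
    have h3 : Mx (oct a₀ G j) x ≤ ∑' j, Mx (oct a₀ G j) x := ENNReal.le_tsum j
    have h4 : ‖ps G r x‖ₑ ^ 2 ≤ Mr D G x := le_Mr G x hrD
    refine le_trans ?_ le_self_add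
    calc ‖ps G R x‖ₑ ^ 2 ≤ 2 * (‖ps G r x‖ₑ ^ 2 + ‖ps G R x - ps G r x‖ₑ ^ 2) := h1
      _ ≤ 2 * (Mr D G x + 4 * ∑' j, Mx (oct a₀ G j) x) := by
          gcongr
          exact h2.trans (mul_le_mul_right h3 _)
      _ = _ := by ring

lemma oct_sum {m : ℕ} {a₀ : ℝ} (ha : 0 < a₀) (G : En (m + 1) → ℂ) :
    ∑' j, nn (oct a₀ G j) ≤ nn G := by
  have h1 : ∀ j, nn (oct a₀ G j) =
      ∫⁻ ξ in shell (m + 1) (a₀ * 2 ^ j) (2 * (a₀ * 2 ^ j)), ‖G ξ‖ₑ ^ 2 := by
    intro j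
    rw [nn, ← lintegral_indicator (shell_meas _ _ _)]
    refine lintegral_congr fun ξ => ?_
    by_cases h : ξ ∈ shell (m + 1) (a₀ * 2 ^ j) (2 * (a₀ * 2 ^ j))
    · rw [oct, indicator_of_mem h, indicator_of_mem h]
    · rw [oct, indicator_of_notMem h, indicator_of_notMem h]; simp
  simp_rw [h1]
  rw [← lintegral_iUnion (fun i => shell_meas _ _ _)]
  · exact setLIntegral_le_lintegral _ _
  · have key : ∀ a b : ℕ, a < b → 2 * (a₀ * 2 ^ a) ≤ a₀ * 2 ^ b := by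
      intro a b hab
      have : (2 : ℝ) ^ (a + 1) ≤ 2 ^ b := pow_le_pow_right₀ (by norm_num) hab
      rw [pow_succ] at this
      nlinarith
    intro a b hab
    rw [Function.onFun, Set.disjoint_left]
    rintro ξ ⟨h1, h2⟩ ⟨h3, h4⟩
    rcases lt_or_gt_of_ne hab with h | h
    · have := key a b h; linarith
    · have := key b a h; linarith

/-- the final constant -/
noncomputable def Kc (m : ℕ) (A : ℝ≥0∞) (a₀ ρ : ℝ) : ℝ≥0∞ :=
  2 * A + 8 * (2 * A + ENNReal.ofReal (C0 m)) + ENNReal.ofReal (a₀ * (C0 m * ρ))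

theorem main_ball {m : ℕ} {D : Set ℝ} {a₀ : ℝ} (hr : Radii D a₀) {ρ : ℝ} (hρ : 0 < ρ) {A : ℝ≥0∞}
    (hA : ∀ G : En (m + 1) → ℂ, MemLp G 2 →
      ∫⁻ x in Metric.closedBall (0 : En (m + 1)) ρ, Mr D G x ≤ A * nn G)
    {G : En (m + 1) → ℂ} (hG : MemLp G 2) :
    ∫⁻ x in Metric.closedBall (0 : En (m + 1)) ρ, Mx G x ≤ Kc m A a₀ ρ * nn G := by
  refine (lintegral_mono fun x => main_pt hr hG x).trans ?_
  have hm1 : Measurable fun x => 2 * Mr D G x := (Mr_meas D hG).const_mul _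
  have hm2 : Measurable fun x => 8 * ∑' j, Mx (oct a₀ G j) x :=
    (Measurable.tsum fun j => Mx_meas (oct_memLp a₀ hG j)).const_mul _
  have hm12 : Measurable fun x => 2 * Mr D G x + 8 * ∑' j, Mx (oct a₀ G j) x := hm1.add hm2
  rw [lintegral_add_left hm12, lintegral_add_left hm1, lintegral_const_mul' _ _ (by simp),
    lintegral_const_mul' _ _ (by simp), lintegral_const_mul' _ _ ENNReal.ofReal_ne_top,
    lintegral_tsum (fun j => (Mx_meas (oct_memLp a₀ hG j)).aemeasurable), Kc, add_mul, add_mul]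
  refine add_le_add (add_le_add ?_ ?_) ?_
  · rw [mul_assoc]; exact mul_le_mul_right (hA G hG) _
  · rw [mul_assoc]
    refine mul_le_mul_right ?_ _
    have h1 : ∀ j, ∫⁻ x in Metric.closedBall (0 : En (m + 1)) ρ, Mx (oct a₀ G j) x ≤
        (2 * A + ENNReal.ofReal (C0 m)) * nn (oct a₀ G j) := by
      intro j
      refine (setLIntegral_le_lintegral _ _).trans ?_
      refine block hr hρ hA (a := a₀ * 2 ^ j) (mul_pos hr.pos (by positivity)) (oct_memLp a₀ hG j) ?_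
      intro ξ hξ
      rw [oct, indicator_of_notMem hξ]
    refine (ENNReal.tsum_le_tsum h1).trans ?_
    rw [ENNReal.tsum_mul_left]
    exact mul_le_mul_right (oct_sum hr.pos G) _
  · refine (mul_le_mul_right (energy_bound hG 0 hρ) _).trans (le_of_eq ?_)
    rw [← mul_assoc, ← ENNReal.ofReal_mul hr.pos.le, C0, nn]

theorem main_all {m : ℕ} {D : Set ℝ} {a₀ : ℝ} (hr : Radii D a₀) {ρ : ℝ} (hρ : 0 < ρ) {A : ℝ≥0∞}
    (hA : ∀ G : En (m + 1) → ℂ, MemLp G 2 →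
      ∫⁻ x in Metric.closedBall (0 : En (m + 1)) ρ, Mr D G x ≤ A * nn G)
    {G : En (m + 1) → ℂ} (hG : MemLp G 2) :
    ∫⁻ x, Mx G x ≤ Kc m A a₀ ρ * nn G := by
  refine glob _ _ fun L hL => ?_
  have hl : 0 < L / ρ := by positivity
  have := scale_ball hl (main_ball hr hρ hA (Gs_memLp hl hG))
  rwa [div_mul_cancel₀ _ hρ.ne'] at this

end Pool.Agent.Run7.h167.SR
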