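import Mathlib
import Pool.Agent.Run7.h167.SR.B

/-! Limits, Baire category, Schwartz functions, sets of positive measure. -/

set_option autoImplicit false

open MeasureTheory Real Set Filter Topology
open scoped ENNReal NNReal RealInnerProductSpace SchwartzMap FourierTransform

namespace Pool.Agent.Run7.h167.SR

open Pool.Agent.Helper93.Sph

lemma nn_eq {n : ℕ} (F : En n → ℂ) : nn F = eLpNorm F 2 volume ^ 2 := by
  rw [eLpNorm_eq_lintegral_rpow_enorm_toReal (by norm_num) (by norm_num), nn,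
    ← ENNReal.rpow_natCast, ← ENNReal.rpow_mul]
  norm_num

lemma ball_int {n : ℕ} {F : En n → ℂ} (hF : MemLp F 2) (R : ℝ) (x : En n) :
    Integrable (fun ξ => ek x ξ * F ξ) (volume.restrict (Metric.closedBall (0 : En n) R)) := by
  have : IsFiniteMeasure (volume.restrict (Metric.closedBall (0 : En n) R)) := ⟨by
    rw [Measure.restrict_apply_univ]; exact measure_closedBall_lt_top⟩
  have h1 : Integrable F (volume.restrict (Metric.closedBall (0 : En n) R)) :=
    (hF.restrict _).integrable (by norm_num)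
  refine h1.bdd_mul (c := 1) ?_ ?_
  · exact (ek_cont.comp (by fun_prop : Continuous fun ξ : En n => (x, ξ))).aestronglyMeasurable
  · exact Eventually.of_forall fun ξ => (ek_norm x ξ).le

lemma ps_sub_fun {n : ℕ} {F G : En n → ℂ} (hF : MemLp F 2) (hG : MemLp G 2) (R : ℝ) (x : En n) :
    ps F R x - ps G R x = ps (F - G) R x := by
  unfold ps
  rw [← integral_sub (ball_int hF R x) (ball_int hG R x)]
  refine integral_congr_ae (Eventually.of_forall fun ξ => ?_)
  simp only [Pi.sub_apply]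
  ring

lemma ps_le {n : ℕ} {F : En n → ℂ} (hF : MemLp F 2) (R : ℝ) (x : En n) :
    ‖ps F R x‖ₑ ≤ eLpNorm F 2 volume * volume (Metric.closedBall (0 : En n) R) ^ (1 / 2 : ℝ) := by
  unfold ps
  refine (enorm_integral_le_lintegral_enorm _).trans ?_
  have h1 : ∀ ξ : En n, ‖ek x ξ * F ξ‖ₑ = ‖F ξ‖ₑ := by
    intro ξ
    rw [enorm_mul, ← ofReal_norm (ek x ξ), ek_norm]
    simp
  simp_rw [h1]
  rw [← eLpNorm_one_eq_lintegral_enorm]
  refine (eLpNorm_le_eLpNorm_mul_rpow_measure_univ (q := 2) (by norm_num)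
    hF.aestronglyMeasurable.restrict).trans ?_
  rw [Measure.restrict_apply_univ]
  refine mul_le_mul' (eLpNorm_mono_measure _ Measure.restrict_le_self) (le_of_eq ?_)
  norm_num

lemma ps_tendsto {n : ℕ} {G : En n → ℂ} (hG : MemLp G 2) {g : ℕ → En n → ℂ}
    (hg : ∀ j, MemLp (g j) 2)
    (hl : Tendsto (fun j => eLpNorm (g j - G) 2 volume) atTop (𝓝 0)) (R : ℝ) (x : En n) :
    Tendsto (fun j => ps (g j) R x) atTop (𝓝 (ps G R x)) := by
  rw [tendsto_iff_edist_tendsto_0]
  have hc : volume (Metric.closedBall (0 : En n) R) ^ (1 / 2 : ℝ) ≠ ⊤ :=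
    ENNReal.rpow_ne_top_of_nonneg (by norm_num) measure_closedBall_lt_top.ne
  have h2 := ENNReal.Tendsto.mul_const hl (Or.inr hc)
  rw [zero_mul] at h2
  refine tendsto_of_tendsto_of_tendsto_of_le_of_le tendsto_const_nhds h2 (fun _ => zero_le)
    fun j => ?_
  simp only
  rw [edist_eq_enorm_sub, ps_sub_fun (hg j) hG]
  exact ps_le ((hg j).sub hG) R x

lemma fatou {m : ℕ} (D : Set ℝ) {G : En (m + 1) → ℂ} (hG : MemLp G 2)
    {g : ℕ → En (m + 1) → ℂ} (hg : ∀ j, MemLp (g j) 2)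
    (hl : Tendsto (fun j => eLpNorm (g j - G) 2 volume) atTop (𝓝 0)) (W : Set (En (m + 1))) :
    ∫⁻ x in W, Mr D G x ≤ liminf (fun j => ∫⁻ x in W, Mr D (g j) x) atTop := by
  have hpt : ∀ x, Mr D G x ≤ liminf (fun j => Mr D (g j) x) atTop := by
    intro x
    refine iSup_le fun R => ?_
    have h1 : Tendsto (fun j => ‖ps (g j) R x‖ₑ ^ 2) atTop (𝓝 (‖ps G R x‖ₑ ^ 2)) :=
      ((ENNReal.continuous_pow 2).tendsto _).comp (ps_tendsto hG hg hl R x).enorm
    rw [← h1.liminf_eq]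
    exact liminf_le_liminf (Eventually.of_forall fun j => le_Mr (g j) x R.2)
  exact (lintegral_mono hpt).trans (lintegral_liminf_le fun j => Mr_meas D (hg j))

lemma Mr_congr {n : ℕ} (D : Set ℝ) {G G' : En n → ℂ} (h : G =ᵐ[volume] G') :
    Mr D G = Mr D G' := by
  funext x
  unfold Mr
  congr 1
  funext R
  have : ps G R x = ps G' R x := by
    unfold ps
    refine integral_congr_ae (ae_restrict_of_ae ?_)
    filter_upwards [h] with ξ hξ
    rw [hξ]
  rw [this]

lemma Mr_sub_le {n : ℕ} (D : Set ℝ) {F G : En n → ℂ} (hF : MemLp F 2) (hG : MemLp G 2)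
    (x : En n) : Mr D (F - G) x ≤ 2 * (Mr D F x + Mr D G x) := by
  refine iSup_le fun R => ?_
  rw [← ps_sub_fun hF hG, sub_eq_add_neg]
  refine (enorm_add_sq_le _ _).trans ?_
  rw [enorm_neg]
  exact mul_le_mul_right (add_le_add (le_Mr F x R.2) (le_Mr G x R.2)) _

lemma Mr_smul {n : ℕ} (D : Set ℝ) (t : ℝ) (G : En n → ℂ) (x : En n) :
    Mr D ((t : ℂ) • G) x = ‖(t : ℂ)‖ₑ ^ 2 * Mr D G x := by
  unfold Mr
  rw [ENNReal.mul_iSup]
  congr 1
  funext R
  have : ps ((t : ℂ) • G) R x = (t : ℂ) * ps G R x := by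
    unfold ps
    rw [← integral_const_mul]
    refine integral_congr_ae (Eventually.of_forall fun ξ => ?_)
    simp only [Pi.smul_apply, smul_eq_mul]
    ring
  rw [this, enorm_mul, mul_pow]

/-- **Baire category**: a qualitative bound is a quantitative one -/
theorem baire {m : ℕ} (D : Set ℝ) (W : Set (En (m + 1)))
    (h : ∀ G : En (m + 1) → ℂ, MemLp G 2 → ∫⁻ x in W, Mr D G x < ⊤) :
    ∃ A : ℝ≥0∞, A ≠ ⊤ ∧ ∀ G : En (m + 1) → ℂ, MemLp G 2 → ∫⁻ x in W, Mr D G x ≤ A * nn G := by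
  let X := Lp ℂ 2 (volume : Measure (En (m + 1)))
  let F : ℕ → Set X := fun N => {g : X | ∫⁻ x in W, Mr D (g : En (m + 1) → ℂ) x ≤ N}
  have hcl : ∀ N, IsClosed (F N) := by
    intro N
    refine IsSeqClosed.isClosed fun u g hu hlim => ?_
    have hl := (Lp.tendsto_Lp_iff_tendsto_eLpNorm' u g).1 hlim
    refine (fatou D (Lp.memLp g) (fun j => Lp.memLp (u j)) hl W).trans ?_
    refine (liminf_le_liminf (Eventually.of_forall hu)).trans ?_
    rw [liminf_const]
  have hU : (⋃ N, F N) = univ := by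
    refine eq_univ_of_forall fun g => mem_iUnion.2 ?_
    obtain ⟨N, hN⟩ := ENNReal.exists_nat_gt (h g (Lp.memLp g)).ne
    exact ⟨N, hN.le⟩
  obtain ⟨N, g₀, hg₀⟩ := nonempty_interior_of_iUnion_of_closed hcl hU
  obtain ⟨δ, hδ, hball⟩ := Metric.isOpen_iff.1 isOpen_interior g₀ hg₀
  have hmem : ∀ g : X, dist g g₀ < δ → ∫⁻ x in W, Mr D (g : En (m + 1) → ℂ) x ≤ N :=
    fun g hg => interior_subset (s := F N) (hball hg)
  refine ⟨ENNReal.ofReal (16 * N / δ ^ 2), ENNReal.ofReal_ne_top, fun G hG => ?_⟩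
  set v : X := hG.toLp G with hv
  rcases eq_or_ne v 0 with h0 | h0
  · have hG0 : G =ᵐ[volume] 0 := by
      have h1 := hG.coeFn_toLp
      rw [← hv, h0] at h1
      exact h1.symm.trans (Lp.coeFn_zero _ _ _)
    rw [Mr_congr D hG0]
    have : ∀ x, Mr D (0 : En (m + 1) → ℂ) x = 0 := by
      intro x
      simp [Mr, ps]
    simp [this]
  · have hvn : 0 < ‖v‖ := norm_pos_iff.2 h0
    set t : ℝ := δ / (2 * ‖v‖) with ht
    have ht0 : 0 < t := by positivity
    set u : X := g₀ + (t : ℂ) • v with hu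
    have hd : dist u g₀ < δ := by
      rw [hu, dist_eq_norm, add_sub_cancel_left, norm_smul, Complex.norm_real,
        Real.norm_of_nonneg ht0.le, ht]
      field_simp
      linarith
    have e1 : (t : ℂ) • G =ᵐ[volume] (u : En (m + 1) → ℂ) - (g₀ : En (m + 1) → ℂ) := by
      have h1 := Lp.coeFn_sub u g₀
      have h2 : u - g₀ = (t : ℂ) • v := by rw [hu, add_sub_cancel_left]
      rw [h2] at h1
      have h3 := Lp.coeFn_smul (t : ℂ) v
      filter_upwards [h1, h3, hG.coeFn_toLp] with ξ a1 a2 a3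
      rw [← a1, a2, Pi.smul_apply, Pi.smul_apply, hv, a3]
    have h4 : ∫⁻ x in W, Mr D ((t : ℂ) • G) x ≤ 4 * N := by
      rw [Mr_congr D e1]
      refine (lintegral_mono fun x => Mr_sub_le D (Lp.memLp u) (Lp.memLp g₀) x).trans ?_
      rw [lintegral_const_mul' _ _ (by simp), lintegral_add_left (Mr_meas D (Lp.memLp u))]
      have b1 := hmem u hd
      have b2 := hmem g₀ (by rw [dist_self]; exact hδ)
      calc 2 * ((∫⁻ x in W, Mr D (u : En (m + 1) → ℂ) x) +
            (∫⁻ x in W, Mr D (g₀ : En (m + 1) → ℂ) x))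
          ≤ 2 * ((N : ℝ≥0∞) + N) := mul_le_mul_right (add_le_add b1 b2) _
        _ = 4 * N := by ring
    simp_rw [Mr_smul] at h4
    rw [lintegral_const_mul' _ _ (by simp)] at h4
    have hte : ‖(t : ℂ)‖ₑ ^ 2 = ENNReal.ofReal (t ^ 2) := by
      rw [← ofReal_norm, Complex.norm_real, Real.norm_of_nonneg ht0.le,
        ENNReal.ofReal_pow ht0.le]
    rw [hte] at h4
    have hnn : nn G = ENNReal.ofReal (‖v‖ ^ 2) := by
      rw [nn_eq, ENNReal.ofReal_pow (norm_nonneg _), hv, Lp.norm_toLp,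
        ENNReal.ofReal_toReal hG.eLpNorm_ne_top]
    have ht2 : ENNReal.ofReal (t ^ 2) ≠ 0 := (ENNReal.ofReal_pos.2 (pow_pos ht0 2)).ne'
    have h5 : ∫⁻ x in W, Mr D G x ≤ 4 * N / ENNReal.ofReal (t ^ 2) := by
      rw [ENNReal.le_div_iff_mul_le (Or.inl ht2) (Or.inl ENNReal.ofReal_ne_top), mul_comm]
      exact h4
    refine h5.trans (le_of_eq ?_)
    rw [hnn, ← ENNReal.ofReal_mul (by positivity),
      show (4 : ℝ≥0∞) * N = ENNReal.ofReal (4 * N) by
        rw [ENNReal.ofReal_mul (by norm_num)]; simp,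
      ← ENNReal.ofReal_div_of_pos (by positivity)]
    congr 1
    rw [ht]
    field_simp
    ring

/-- translations -/
lemma shift {m : ℕ} (D : Set ℝ) (W : Set (En (m + 1))) {A : ℝ≥0∞}
    (h : ∀ G : En (m + 1) → ℂ, MemLp G 2 → ∫⁻ x in W, Mr D G x ≤ A * nn G)
    {G : En (m + 1) → ℂ} (hG : MemLp G 2) (y : En (m + 1)) :
    ∫⁻ x in W, Mr D G (x + y) ≤ A * nn G := by
  have h1 := h _ (ek_memLp y hG)
  rw [nn_ek] at h1
  refine le_trans (le_of_eq ?_) h1
  refine lintegral_congr fun x => ?_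
  unfold Mr
  simp_rw [ps_ek]

/-- **sets of positive measure**: from `W` to a ball -/
theorem to_ball {m : ℕ} (D : Set ℝ) (W : Set (En (m + 1))) (hW : MeasurableSet W)
    (hW0 : 0 < volume W) {A : ℝ≥0∞} (hA : A ≠ ⊤)
    (h : ∀ G : En (m + 1) → ℂ, MemLp G 2 → ∫⁻ x in W, Mr D G x ≤ A * nn G) :
    ∃ A' : ℝ≥0∞, A' ≠ ⊤ ∧ ∀ G : En (m + 1) → ℂ, MemLp G 2 →
      ∫⁻ x in Metric.closedBall (0 : En (m + 1)) 1, Mr D G x ≤ A' * nn G := by
  obtain ⟨T, hT⟩ : ∃ T : ℕ, 0 < volume (W ∩ Metric.closedBall (0 : En (m + 1)) T) := by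
    by_contra hcon
    push Not at hcon
    have h1 : volume (⋃ T : ℕ, W ∩ Metric.closedBall (0 : En (m + 1)) T) = 0 :=
      measure_iUnion_null fun T => le_antisymm (hcon T) zero_le
    have h2 : (⋃ T : ℕ, W ∩ Metric.closedBall (0 : En (m + 1)) T) = W := by
      rw [← inter_iUnion]
      have : (⋃ T : ℕ, Metric.closedBall (0 : En (m + 1)) T) = univ := by
        refine eq_univ_of_forall fun x => mem_iUnion.2 ?_
        obtain ⟨k, hk⟩ := exists_nat_ge ‖x‖
        exact ⟨k, by simpa using hk⟩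
      rw [this, inter_univ]
    rw [h2] at h1
    exact hW0.ne' h1
  set V := W ∩ Metric.closedBall (0 : En (m + 1)) T with hV
  have hVm : MeasurableSet V := hW.inter Metric.isClosed_closedBall.measurableSet
  have hVt : volume V < ⊤ := (measure_mono inter_subset_right).trans_lt measure_closedBall_lt_top
  set U : Set (En (m + 1)) := Metric.closedBall (0 : En (m + 1)) ((T : ℝ) + 1) with hU
  have hUt : volume U < ⊤ := measure_closedBall_lt_top
  refine ⟨volume U * A / volume V, ?_, fun G hG => ?_⟩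
  · exact (ENNReal.div_lt_top (ENNReal.mul_ne_top hUt.ne hA) hT.ne').ne
  have hM := Mr_meas D hG
  -- the double integral
  have hsw : ∫⁻ y in U, ∫⁻ x in V, Mr D G (x + y) = ∫⁻ x in V, ∫⁻ y in U, Mr D G (x + y) := by
    refine lintegral_lintegral_swap ?_
    exact (hM.comp (measurable_snd.add measurable_fst)).aemeasurable
  have hup : ∫⁻ y in U, ∫⁻ x in V, Mr D G (x + y) ≤ volume U * (A * nn G) := by
    calc ∫⁻ y in U, ∫⁻ x in V, Mr D G (x + y) ≤ ∫⁻ _y in U, A * nn G := by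
          refine lintegral_mono fun y => ?_
          exact (lintegral_mono_set inter_subset_left).trans (shift D W h hG y)
      _ = _ := by rw [setLIntegral_const, mul_comm]
  have hlow : volume V * ∫⁻ x in Metric.closedBall (0 : En (m + 1)) 1, Mr D G x ≤
      ∫⁻ x in V, ∫⁻ y in U, Mr D G (x + y) := by
    have : ∫⁻ _x in V, (∫⁻ z in Metric.closedBall (0 : En (m + 1)) 1, Mr D G z) =
        volume V * ∫⁻ z in Metric.closedBall (0 : En (m + 1)) 1, Mr D G z := by
      rw [setLIntegral_const, mul_comm]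
    rw [← this]
    refine setLIntegral_mono' hVm fun x hx => ?_
    have hxT : ‖x‖ ≤ T := by simpa using hx.2
    have h3 := ball_shift (Mr D G) x 0 ((T : ℝ) + 1)
    have h4 : ∫⁻ y in U, Mr D G (x + y) = ∫⁻ z in Metric.closedBall x ((T : ℝ) + 1), Mr D G z := by
      rw [h3]
      refine lintegral_congr fun y => ?_
      rw [sub_zero, add_comm x y]
    rw [h4]
    refine lintegral_mono_set fun z hz => ?_
    simp only [Metric.mem_closedBall, dist_zero_right] at hz
    rw [Metric.mem_closedBall, dist_eq_norm]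
    have := norm_sub_le z x
    linarith
  have h5 : volume V * ∫⁻ x in Metric.closedBall (0 : En (m + 1)) 1, Mr D G x ≤
      volume U * A * nn G := by
    rw [mul_assoc]
    exact hlow.trans ((le_of_eq hsw.symm).trans hup)
  rw [← ENNReal.mul_div_right_comm, ENNReal.le_div_iff_mul_le (Or.inl hT.ne') (Or.inl hVt.ne),
    mul_comm]
  exact h5

/-- Plancherel for Schwartz functions -/
lemma plancherel {n : ℕ} (f : 𝓢(En n, ℂ)) : nn (f : En n → ℂ) =
    nn ((𝓕 f : 𝓢(En n, ℂ)) : En n → ℂ) := by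
  have h1 := SchwartzMap.norm_fourier_toL2_eq f
  have e1 : ∀ g : 𝓢(En n, ℂ), nn (g : En n → ℂ) = ENNReal.ofReal (‖g.toLp 2‖ ^ 2) := by
    intro g
    rw [nn_eq, ENNReal.ofReal_pow (norm_nonneg _)]
    congr 1
    rw [SchwartzMap.toLp, Lp.norm_toLp]
    exact (ENNReal.ofReal_toReal (g.memLp 2 volume).eLpNorm_ne_top).symm
  rw [e1, e1, h1]

/-- Schwartz functions are enough -/
theorem schwartz {m : ℕ} (D : Set ℝ) (W : Set (En (m + 1))) {A : ℝ≥0∞} (hA : A ≠ ⊤)
    (h : ∀ f : 𝓢(En (m + 1), ℂ), ∫⁻ x in W, Mr D (𝓕 f : 𝓢(En (m + 1), ℂ)) x ≤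
      A * ∫⁻ x, ‖f x‖ₑ ^ 2)
    {G : En (m + 1) → ℂ} (hG : MemLp G 2) : ∫⁻ x in W, Mr D G x ≤ A * nn G := by
  have hpl := fun f : 𝓢(En (m + 1), ℂ) => plancherel f
  have hd := SchwartzMap.denseRange_toLpCLM (E := En (m + 1)) (F := ℂ) (p := 2)
    (μ := (volume : Measure (En (m + 1)))) ENNReal.ofNat_ne_top
  obtain ⟨u, hu, hlim⟩ := mem_closure_iff_seq_limit.1 (hd (hG.toLp G))
  choose g hg using hu
  have hgm : ∀ j, MemLp (g j : En (m + 1) → ℂ) 2 := fun j => (g j).memLp 2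
  have hug : ∀ j, u j = (hgm j).toLp (g j) := fun j => (hg j).symm
  have hu' : u = fun j => (hgm j).toLp (g j) := funext hug
  rw [hu', Lp.tendsto_Lp_iff_tendsto_eLpNorm'' (fun j => (g j : En (m + 1) → ℂ)) hgm G hG] at hlim
  have hj : ∀ j, ∫⁻ x in W, Mr D (g j) x ≤ A * nn (g j : En (m + 1) → ℂ) := by
    intro j
    have h1 := h (𝓕⁻ (g j))
    rw [FourierTransform.fourier_fourierInv_eq] at h1
    refine h1.trans (le_of_eq ?_)
    have h2 := hpl (𝓕⁻ (g j))
    rw [FourierTransform.fourier_fourierInv_eq] at h2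
    rw [← h2, nn]
  have hn : Tendsto (fun j => A * nn (g j : En (m + 1) → ℂ)) atTop (𝓝 (A * nn G)) := by
    refine ENNReal.Tendsto.const_mul ?_ (Or.inr hA)
    simp_rw [nn_eq]
    refine ((ENNReal.continuous_pow 2).tendsto _).comp ?_
    have h3 := (Lp.tendsto_Lp_iff_tendsto_eLpNorm'' (fun j => (g j : En (m + 1) → ℂ)) hgm G hG).2 hlim
    have h4 := h3.norm
    simp_rw [Lp.norm_toLp] at h4
    have h5 := ENNReal.tendsto_ofReal h4
    simp_rw [ENNReal.ofReal_toReal (hgm _).eLpNorm_ne_top,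
      ENNReal.ofReal_toReal hG.eLpNorm_ne_top] at h5
    exact h5
  refine (fatou D hG hgm hlim W).trans ?_
  rw [← hn.liminf_eq]
  exact liminf_le_liminf (Eventually.of_forall hj)

end Pool.Agent.Run7.h167.SR
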